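import Pool.Agent.Lib.MP_ecd4e3_gt.N.Fin

/-! The sponge problem of Guth in every dimension. -/

namespace Pool.Agent.Results.MP_ecd4e3_gt.Full

theorem result : ∀ n : ℕ, 1 ≤ n → ∃ ε : ℝ, 0 < ε ∧ ∀ U : Set (EuclideanSpace ℝ (Fin n)),
    IsOpen U → MeasureTheory.volume U ≤ ENNReal.ofReal ε →
    ∃ f : EuclideanSpace ℝ (Fin n) → EuclideanSpace ℝ (Fin n),
      Topology.IsEmbedding (U.domRestrict f) ∧ Set.MapsTo f U (Metric.closedBall 0 1) ∧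
      (∀ x ∈ U, ∃ r > 0, ∀ y ∈ Metric.ball x r, ∀ z ∈ Metric.ball x r,
        dist y z ≤ dist (f y) (f z)) ∧
      ∀ (γ : ℝ → EuclideanSpace ℝ (Fin n)) (a b : ℝ), ContinuousOn γ (Set.Icc a b) →
        Set.MapsTo γ (Set.Icc a b) U →
        eVariationOn γ (Set.Icc a b) ≤ eVariationOn (f ∘ γ) (Set.Icc a b) := by
  intro n hn
  obtain ⟨ε, hε, h⟩ := Pool.Agent.Lib.MP_ecd4e3_gt.N.euclid_of_fill hn
    (Pool.Agent.Lib.MP_ecd4e3_gt.N.fill_all hn)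
  refine ⟨ε, hε, fun U hU hv => ?_⟩
  obtain ⟨f, h1, h2, h3, h4⟩ := h U hU hv
  obtain ⟨a, b, c⟩ := Pool.Agent.Lib.MP_ecd4e3_gt.N.local_of_exp hU h1 h2 h4
  exact ⟨f, a, h3, b, c⟩

end Pool.Agent.Results.MP_ecd4e3_gt.Full
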