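import Pool.Agent.Lib.MP_ecd4e3_gt.Final

/-! The sponge problem in the plane, for bounded open sets whose closure has small area. -/

namespace Pool.Agent.Results.MP_ecd4e3_gt.Planar

theorem result : ∃ ε : ℝ, 0 < ε ∧ ∀ U : Set (EuclideanSpace ℝ (Fin 2)), IsOpen U →
    Bornology.IsBounded U → MeasureTheory.volume (closure U) ≤ ENNReal.ofReal ε →
    ∃ f : EuclideanSpace ℝ (Fin 2) → EuclideanSpace ℝ (Fin 2),
      Topology.IsEmbedding (U.domRestrict f) ∧ Set.MapsTo f U (Metric.closedBall 0 1) ∧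
      (∃ L : ℝ, ∀ x ∈ U, ∃ r > 0, ∀ y ∈ Metric.ball x r, ∀ z ∈ Metric.ball x r,
        dist y z ≤ dist (f y) (f z) ∧ dist (f y) (f z) ≤ L * dist y z) ∧
      ∀ (γ : ℝ → EuclideanSpace ℝ (Fin 2)) (a b : ℝ), ContinuousOn γ (Set.Icc a b) →
        Set.MapsTo γ (Set.Icc a b) U →
        eVariationOn γ (Set.Icc a b) ≤ eVariationOn (f ∘ γ) (Set.Icc a b) := by
  obtain ⟨ε, hε, h⟩ := Pool.Agent.Lib.MP_ecd4e3_gt.euclid_small
  refine ⟨ε, hε, fun U hU hb hv => ?_⟩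
  obtain ⟨f, L, h1, h2, h3⟩ := h (closure U) hb.isCompact_closure hv
  obtain ⟨a, b, c⟩ := Pool.Agent.Lib.MP_ecd4e3_gt.local_of_pw hU (h1.mono subset_closure)
    fun z hz => h3 z (subset_closure hz)
  exact ⟨f, a, h2.mono_left subset_closure, ⟨L, b⟩, c⟩

end Pool.Agent.Results.MP_ecd4e3_gt.Planar
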